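import Mathlib

open Finset

namespace Pool.Agent.H.MP_726576_nt

lemma block (g : ℕ → ℂ) (hg : ∀ i, ‖g i‖ = 1) (L : ℕ) (hL : 0 < L)
    (h : ∀ t, ∑ i ∈ range L, g (L * t + i) = 0) (M : ℕ) : ‖∑ i ∈ range M, g i‖ ≤ L := by
  have h1 : ∀ t, ∑ i ∈ range (L * t), g i = 0 := by
    intro t
    induction t with
    | zero => simp
    | succ t ih => rw [Nat.mul_succ, sum_range_add, ih, h t, add_zero]
  rw [← Nat.div_add_mod M L, sum_range_add, h1, zero_add]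
  refine (norm_sum_le _ _).trans ?_
  simp only [hg, sum_const, card_range, nsmul_eq_mul, mul_one]
  exact_mod_cast (Nat.mod_lt M hL).le

lemma enum (f : ℕ → ℕ) (hf : StrictMono f) (h1 : 1 ≤ f 0) (P : ℕ → Prop) [DecidablePred P]
    (hP : ∀ k, 1 ≤ k → (P k ↔ ∃ i, f i = k)) (b : ℕ → ℂ) (n : ℕ) :
    ∃ M, ∑ k ∈ (Icc 1 n).filter P, b k = ∑ i ∈ range M, b (f i) := by
  have ex : ∃ i, n < f i := ⟨n + 1, lt_of_lt_of_le (Nat.lt_succ_self n) (hf.id_le (n + 1))⟩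
  refine ⟨Nat.find ex, ?_⟩
  rw [← sum_image (f := b) (fun x _ y _ h => hf.injective h)]
  congr 1
  ext k
  simp only [mem_filter, mem_Icc, mem_image, mem_range]
  constructor
  · rintro ⟨⟨k1, k2⟩, hk⟩
    obtain ⟨i, rfl⟩ := (hP k k1).1 hk
    refine ⟨i, ?_, rfl⟩
    by_contra hh
    have := hf.monotone (not_lt.1 hh)
    have := Nat.find_spec ex
    omega
  · rintro ⟨i, hi, rfl⟩
    have k1 : 1 ≤ f i := h1.trans (hf.monotone (Nat.zero_le i))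
    exact ⟨⟨k1, not_lt.1 (Nat.find_min ex hi)⟩, (hP _ k1).2 ⟨i, rfl⟩⟩

lemma bad (f : ℕ → ℕ) (hf : StrictMono f) (h1 : 1 ≤ f 0) (P : ℕ → Prop) [DecidablePred P]
    (hP : ∀ k, 1 ≤ k → (P k ↔ ∃ i, f i = k)) (a : ℕ → ℂ) (ha : ∀ k, ‖a k‖ = 1) (L : ℕ)
    (hL : 0 < L) (h : ∀ d, 1 ≤ d → ∀ t, ∑ i ∈ range L, a (d * f (L * t + i)) = 0) :
    ∃ a : ℕ → ℂ, (∀ k, ‖a k‖ = 1) ∧ ∃ C : ℝ, ∀ d n : ℕ, 1 ≤ d → 1 ≤ n →
      ‖∑ k ∈ (Icc 1 n).filter P, a (d * k)‖ ≤ C := by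
  refine ⟨a, ha, L, fun d n hd _ => ?_⟩
  obtain ⟨M, hM⟩ := enum f hf h1 P hP (fun k => a (d * k)) n
  rw [hM]
  exact block (fun i => a (d * f i)) (fun i => ha _) L hL (h d hd) M

lemma compl_mul (p d k : ℕ) (hp : p.Prime) (hk : ¬ p ∣ k) :
    ordCompl[p] (d * k) = ordCompl[p] d * k := by
  rw [Nat.ordCompl_mul, Nat.factorization_eq_zero_of_not_dvd hk]; simp

end Pool.Agent.H.MP_726576_nt
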